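import Mathlib
import Pool.Agent.Q133.ConnSet

set_option autoImplicit false

/-!
# Disconnected graphs with real-rooted connected set polynomial and node reliability, in every degree
-/

open Polynomial

namespace Pool.Agent.Results.MP_51a8c5_co.RealRootedAllDegrees

/-- A set `S` of vertices of `G` is connected if it is nonempty and the induced subgraph `G[S]` is
connected. -/
def IsConnectedSet {V : Type*} (G : SimpleGraph V) (S : Finset V) : Prop :=
  S.Nonempty ∧ (G.induce (S : Set V)).Connected

open Classical in
/-- The connected set polynomial `C(G; x) = ∑_{S connected} x^|S|`. -/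
noncomputable def connectedSetPoly {V : Type*} [Fintype V] (G : SimpleGraph V) : ℝ[X] :=
  ∑ S ∈ Finset.univ.filter (fun S : Finset V => IsConnectedSet G S), X ^ S.card

open Classical in
/-- The node reliability `NRel(G; p) = ∑_{S connected} p^|S| (1-p)^(n-|S|)`, `n` the number of
vertices. -/
noncomputable def nodeReliability {V : Type*} [Fintype V] (G : SimpleGraph V) : ℝ[X] :=
  ∑ S ∈ Finset.univ.filter (fun S : Finset V => IsConnectedSet G S),
    X ^ S.card * (1 - X) ^ (Fintype.card V - S.card)

/-- A real polynomial has all real roots if every complex root of it is real. -/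
def AllRootsReal (p : ℝ[X]) : Prop := ∀ z : ℂ, aeval z p = 0 → z.im = 0

/-- If all roots of `C(G; x)` are real, then so are those of `NRel(G; p)`. -/
theorem allRootsReal_nodeReliability {V : Type*} [Fintype V] (G : SimpleGraph V)
    (h : AllRootsReal (connectedSetPoly G)) : AllRootsReal (nodeReliability G) := by
  classical
  intro z hz
  by_cases h1 : z = 1
  · rw [h1]; simp
  have h1' : (1 - z) ≠ 0 := fun hh => h1 (sub_eq_zero.mp hh).symm
  set w : ℂ := z / (1 - z) with hw
  have hC : aeval w (connectedSetPoly G) = 0 := by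
    have key : aeval z (nodeReliability G) = (1 - z) ^ Fintype.card V * aeval w (connectedSetPoly G) := by
      rw [nodeReliability, connectedSetPoly, map_sum, map_sum, Finset.mul_sum]
      refine Finset.sum_congr rfl fun S _ => ?_
      simp only [map_mul, map_pow, aeval_X, map_sub, map_one]
      have hle : S.card ≤ Fintype.card V := Finset.card_le_univ S
      obtain ⟨k, hk⟩ := Nat.exists_eq_add_of_le hle
      rw [hk, Nat.add_sub_cancel_left, pow_add, hw, div_pow]
      field_simp
    rw [key] at hz
    rcases mul_eq_zero.mp hz with h2 | h2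
    · exact absurd h2 (pow_ne_zero _ h1')
    · exact h2
  have him := h w hC
  have h3 : (1 + w) * (1 - z) = 1 := by
    rw [hw]; field_simp; ring
  have h4 : z = w / (1 + w) := by
    have h5 : (1 + w) ≠ 0 := fun hh => by rw [hh, zero_mul] at h3; exact zero_ne_one h3
    rw [eq_div_iff h5]
    linear_combination (-1 : ℂ) * h3
  have h6 : w = ((w.re : ℝ) : ℂ) := Complex.ext rfl (by rw [him]; simp)
  rw [h4, h6]
  have : ((w.re : ℝ) : ℂ) / (1 + ((w.re : ℝ) : ℂ)) = ((w.re / (1 + w.re) : ℝ) : ℂ) := by
    push_cast; rfl
  rw [this, Complex.ofReal_im]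

/-- **Theorem.** For every `d ≥ 2` there is a disconnected finite graph `G` whose connected set
polynomial has degree exactly `d` and such that all roots of `C(G; x)` and all roots of
`NRel(G; p)` are real. -/
theorem result (d : ℕ) (hd : 2 ≤ d) : ∃ (V : Type) (_ : Fintype V) (G : SimpleGraph V),
    ¬ G.Connected ∧ (connectedSetPoly G).natDegree = d ∧
      AllRootsReal (connectedSetPoly G) ∧ AllRootsReal (nodeReliability G) := by
  classical
  obtain ⟨n, rfl⟩ : ∃ n, d = n + 1 := ⟨d - 1, by omega⟩
  refine ⟨_, inferInstance, Q133.ConnSet.cliques (Q133.ConnSet.ord n),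
    Q133.ConnSet.not_connected n (by omega), ?_⟩
  have hC : connectedSetPoly (Q133.ConnSet.cliques (Q133.ConnSet.ord n)) =
      X * (X + C ((n : ℝ) + 2)) ^ n := by
    rw [← Q133.ConnSet.poly_eq, ← Q133.ConnSet.sum_connSets, connectedSetPoly]
    refine Finset.sum_congr ?_ fun _ _ => rfl
    ext S
    simp only [Finset.mem_filter, Finset.mem_univ, true_and, IsConnectedSet,
      Q133.ConnSet.IsConnSet]
    refine ⟨fun h => h.2, fun h => ⟨?_, h⟩⟩
    obtain ⟨⟨x, hx⟩⟩ := h.nonempty
    exact ⟨x, hx⟩
  have hreal : AllRootsReal (connectedSetPoly (Q133.ConnSet.cliques (Q133.ConnSet.ord n))) := by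
    rw [hC]
    intro z hz
    rw [map_mul, map_pow, map_add, aeval_X, aeval_C] at hz
    rcases mul_eq_zero.mp hz with h | h
    · rw [h]; simp
    · have h1 : z + (algebraMap ℝ ℂ) ((n : ℝ) + 2) = 0 :=
        (pow_eq_zero_iff (by omega : n ≠ 0)).mp h
      have h2 : z = ((-((n : ℝ) + 2) : ℝ) : ℂ) := by
        rw [Complex.ofReal_neg]
        exact eq_neg_of_add_eq_zero_left h1
      rw [h2, Complex.ofReal_im]
  refine ⟨?_, hreal, allRootsReal_nodeReliability _ hreal⟩
  rw [hC, natDegree_X_mul (pow_ne_zero _ (X_add_C_ne_zero _)), natDegree_pow_X_add_C]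

end Pool.Agent.Results.MP_51a8c5_co.RealRootedAllDegrees
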